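import Pool.Agent.N236.UR.Stm5

set_option autoImplicit false

/-!
Project UR (helper236), part 4: divided differences of Dickson polynomials.
-/

open Polynomial

namespace Pool.Agent.N7.UR.DE

open Pool.Agent.N236.UB Pool.Agent.N236.UR

theorem ev0 {R : Type*} [CommRing R] (a x : R) : (dickson 1 a 0).eval x = 2 := by
  rw [dickson_zero]
  simp
  norm_num

theorem ev1 {R : Type*} [CommRing R] (a x : R) : (dickson 1 a 1).eval x = x := by
  rw [dickson_one, eval_X]

theorem ev2 {R : Type*} [CommRing R] (a x : R) (n : ℕ) : (dickson 1 a (n + 2)).eval x =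
    x * (dickson 1 a (n + 1)).eval x - a * (dickson 1 a n).eval x := by
  rw [dickson_add_two]
  simp

variable {L : Type} [Field L]

theorem DE0 (a A B : L) : DE a A B 0 = 0 := rfl

theorem DE1 (a A B : L) : DE a A B 1 = 1 := rfl

theorem DE2 (a A B : L) (n : ℕ) : DE a A B (n + 2) =
    (dickson 1 a (n + 1)).eval A + B * DE a A B (n + 1) - a * DE a A B n := rfl

theorem formula (a A B : L) (n : ℕ) :
    (dickson 1 a n).eval A - (dickson 1 a n).eval B = (A - B) * DE a A B n := by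
  induction n using Nat.twoStepInduction with
  | zero => rw [ev0, ev0, DE0]; ring
  | one => rw [ev1, ev1, DE1]; ring
  | more n ih1 ih2 =>
    rw [ev2, ev2, DE2]
    linear_combination B * ih2 - a * ih1

theorem symm (a A B : L) (n : ℕ) : DE a A B n = DE a B A n := by
  by_cases h : A = B
  · rw [h]
  · apply mul_left_cancel₀ (sub_ne_zero.2 h)
    linear_combination -formula a A B n - formula a B A n

variable {v : AbsoluteValue L ℝ}

theorem add_le (hna : ∀ x y : L, v (x + y) ≤ max (v x) (v y)) {x y : L} {T : ℝ} (hx : v x ≤ T)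
    (hy : v y ≤ T) : v (x + y) ≤ T := (hna x y).trans (max_le hx hy)

theorem sub_le' (hna : ∀ x y : L, v (x + y) ≤ max (v x) (v y)) {x y : L} {T : ℝ} (hx : v x ≤ T)
    (hy : v y ≤ T) : v (x - y) ≤ T := by
  rw [sub_eq_add_neg]
  exact add_le hna hx (by rw [v.map_neg]; exact hy)

theorem add_lt (hna : ∀ x y : L, v (x + y) ≤ max (v x) (v y)) {x y : L} {T : ℝ} (hx : v x < T)
    (hy : v y < T) : v (x + y) < T := (hna x y).trans_lt (max_lt hx hy)

theorem sub_lt' (hna : ∀ x y : L, v (x + y) ≤ max (v x) (v y)) {x y : L} {T : ℝ} (hx : v x < T)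
    (hy : v y < T) : v (x - y) < T := by
  rw [sub_eq_add_neg]
  exact add_lt hna hx (by rw [v.map_neg]; exact hy)

theorem mle {x y : L} {S T : ℝ} (hx : v x ≤ S) (hy : v y ≤ T) : v (x * y) ≤ S * T := by
  rw [v.map_mul]
  exact mul_le_mul hx hy (v.nonneg _) ((v.nonneg _).trans hx)

theorem mlt1 {x y : L} {S T : ℝ} (hx : v x < S) (hy : v y ≤ T) (hT : 0 < T) :
    v (x * y) < S * T := by
  rw [v.map_mul]
  calc v x * v y ≤ v x * T := mul_le_mul_of_nonneg_left hy (v.nonneg _)
    _ < S * T := mul_lt_mul_of_pos_right hx hT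

theorem mlt2 {x y : L} {S T : ℝ} (hx : v x ≤ S) (hy : v y < T) (hS : 0 < S) :
    v (x * y) < S * T := by
  rw [v.map_mul]
  calc v x * v y ≤ S * v y := mul_le_mul_of_nonneg_right hx (v.nonneg _)
    _ < S * T := mul_lt_mul_of_pos_left hy hS

theorem D_le (hna : ∀ x y : L, v (x + y) ≤ max (v x) (v y)) {a A : L} {M : ℝ} (hM : 0 < M)
    (hA : v A ≤ M) (ha : v a ≤ M ^ 2) (n : ℕ) : v ((dickson 1 a n).eval A) ≤ M ^ n := by
  induction n using Nat.twoStepInduction with
  | zero =>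
    rw [ev0, pow_zero]
    have h : (2 : L) = 1 + 1 := by norm_num
    rw [h]
    exact add_le hna (by rw [v.map_one]) (by rw [v.map_one])
  | one => rw [ev1, pow_one]; exact hA
  | more n ih1 ih2 =>
    rw [ev2]
    refine sub_le' hna ?_ ?_
    · have := mle hA ih2
      rwa [← pow_succ'] at this
    · have := mle ha ih1
      rwa [← pow_add, add_comm 2 n] at this

theorem DE_le (hna : ∀ x y : L, v (x + y) ≤ max (v x) (v y)) {a A B : L} {M : ℝ} (hM : 0 < M)
    (hA : v A ≤ M) (hB : v B ≤ M) (ha : v a ≤ M ^ 2) (n : ℕ) : v (DE a A B (n + 1)) ≤ M ^ n := by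
  induction n using Nat.twoStepInduction with
  | zero => rw [DE1, v.map_one, pow_zero]
  | one =>
    rw [DE2, ev1, DE1, DE0, mul_zero, sub_zero, mul_one, pow_one]
    exact add_le hna hA hB
  | more n ih1 ih2 =>
    rw [DE2]
    refine sub_le' hna (add_le hna (D_le hna hM hA ha (n + 2)) ?_) ?_
    · have := mle hB ih2
      rwa [← pow_succ'] at this
    · have := mle ha ih1
      rwa [← pow_add, add_comm 2 n] at this

theorem D_lt (hna : ∀ x y : L, v (x + y) ≤ max (v x) (v y)) {c a A a' A' : L} {M : ℝ} (hM : 0 < M)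
    (hA : v (c * A) ≤ M) (ha : v (c ^ 2 * a) ≤ M ^ 2) (hA' : v A' ≤ M) (ha' : v a' ≤ M ^ 2)
    (dA : v (A' - c * A) < M) (da : v (a' - c ^ 2 * a) < M ^ 2) (n : ℕ) :
    v ((dickson 1 a' n).eval A' - c ^ n * (dickson 1 a n).eval A) < M ^ n := by
  induction n using Nat.twoStepInduction with
  | zero =>
    rw [ev0, ev0, pow_zero, pow_zero, one_mul, sub_self, v.map_zero]
    exact one_pos
  | one => rw [ev1, ev1, pow_one, pow_one]; exact dA
  | more n ih1 ih2 =>
    have e : (dickson 1 a' (n + 2)).eval A' - c ^ (n + 2) * (dickson 1 a (n + 2)).eval A =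
        (A' - c * A) * (dickson 1 a' (n + 1)).eval A' +
        c * A * ((dickson 1 a' (n + 1)).eval A' - c ^ (n + 1) * (dickson 1 a (n + 1)).eval A) -
        (a' - c ^ 2 * a) * (dickson 1 a' n).eval A' -
        c ^ 2 * a * ((dickson 1 a' n).eval A' - c ^ n * (dickson 1 a n).eval A) := by
      rw [ev2, ev2]
      ring
    have p1 : M * M ^ (n + 1) = M ^ (n + 2) := by ring
    have p2 : M ^ 2 * M ^ n = M ^ (n + 2) := by ring
    rw [e]
    refine sub_lt' hna (sub_lt' hna (add_lt hna ?_ ?_) ?_) ?_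
    · rw [← p1]; exact mlt1 dA (D_le hna hM hA' ha' (n + 1)) (by positivity)
    · rw [← p1]; exact mlt2 hA ih2 hM
    · rw [← p2]; exact mlt1 da (D_le hna hM hA' ha' n) (by positivity)
    · rw [← p2]; exact mlt2 ha ih1 (by positivity)

theorem DE_lt (hna : ∀ x y : L, v (x + y) ≤ max (v x) (v y)) {c a A B a' A' B' : L} {M : ℝ}
    (hM : 0 < M) (hA : v (c * A) ≤ M) (hB : v (c * B) ≤ M) (ha : v (c ^ 2 * a) ≤ M ^ 2)
    (hA' : v A' ≤ M) (hB' : v B' ≤ M) (ha' : v a' ≤ M ^ 2) (dA : v (A' - c * A) < M)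
    (dB : v (B' - c * B) < M) (da : v (a' - c ^ 2 * a) < M ^ 2) (n : ℕ) :
    v (DE a' A' B' (n + 1) - c ^ n * DE a A B (n + 1)) < M ^ n := by
  induction n using Nat.twoStepInduction with
  | zero =>
    rw [DE1, DE1, pow_zero, pow_zero, one_mul, sub_self, v.map_zero]
    exact one_pos
  | one =>
    have e : DE a' A' B' (1 + 1) - c ^ 1 * DE a A B (1 + 1) = (A' - c * A) + (B' - c * B) := by
      rw [DE2, DE2, ev1, ev1, DE1, DE1, DE0, DE0]
      ring
    rw [e, pow_one]
    exact add_lt hna dA dB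
  | more n ih1 ih2 =>
    have e : DE a' A' B' (n + 2 + 1) - c ^ (n + 2) * DE a A B (n + 2 + 1) =
        ((dickson 1 a' (n + 2)).eval A' - c ^ (n + 2) * (dickson 1 a (n + 2)).eval A) +
        (B' - c * B) * DE a' A' B' (n + 1 + 1) +
        c * B * (DE a' A' B' (n + 1 + 1) - c ^ (n + 1) * DE a A B (n + 1 + 1)) -
        (a' - c ^ 2 * a) * DE a' A' B' (n + 1) -
        c ^ 2 * a * (DE a' A' B' (n + 1) - c ^ n * DE a A B (n + 1)) := by
      rw [DE2 a' A' B' (n + 1), DE2 a A B (n + 1)]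
      ring
    have p1 : M * M ^ (n + 1) = M ^ (n + 2) := by ring
    have p2 : M ^ 2 * M ^ n = M ^ (n + 2) := by ring
    rw [e]
    refine sub_lt' hna (sub_lt' hna (add_lt hna (add_lt hna
      (D_lt hna hM hA ha hA' ha' dA da (n + 2)) ?_) ?_) ?_) ?_
    · rw [← p1]; exact mlt1 dB (DE_le hna hM hA' hB' ha' (n + 1)) (by positivity)
    · rw [← p1]; exact mlt2 hB ih2 hM
    · rw [← p2]; exact mlt1 da (DE_le hna hM hA' hB' ha' n) (by positivity)
    · rw [← p2]; exact mlt2 ha ih1 (by positivity)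

theorem t_de : S_DE := by
  intro L _ v hna
  refine ⟨formula, symm, ?_, ?_⟩
  · intro a A B M n hM hn hA hB ha
    obtain ⟨k, rfl⟩ : ∃ k, n = k + 1 := ⟨n - 1, by omega⟩
    exact DE_le hna hM hA hB ha k
  · intro c a A B a' A' B' M n hM hn hA hB ha hA' hB' ha' dA dB da
    obtain ⟨k, rfl⟩ : ∃ k, n = k + 1 := ⟨n - 1, by omega⟩
    exact DE_lt hna hM hA hB ha hA' hB' ha' dA dB da k

end Pool.Agent.N7.UR.DE
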